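import Pool.Agent.Run7.h969.GS.LrT

/-!
The infinite iteration.
-/

set_option autoImplicit false

open MeasureTheory Set Filter Topology
open scoped ENNReal

namespace Pool.Agent.Run7.h969.GS

open H459R3.NS Pool.Agent.Run7.h782 Pool.Agent.Run7.h782.GD Pool.Agent.Run7.h782.GS

/-- Telescoping. -/
theorem tel {A : ℕ → ℝ → Cf} {b : ℝ → Cf} {t : ℝ}
    (hlim : ∀ k, Tendsto (fun j => A (j + 1) t k) atTop (𝓝 (b t k))) (J : ℕ) (k : K3) :
    ENNReal.ofReal ‖b t k - A J t k‖
      ≤ ∑' i, ENNReal.ofReal ‖A (J + i + 1) t k - A (J + i) t k‖ := by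
  have h1 : Tendsto (fun j => A j t k) atTop (𝓝 (b t k)) := (tendsto_add_atTop_iff_nat 1).1 (hlim k)
  have h2 := edist_le_tsum_of_edist_le_of_tendsto (f := fun j => A j t k)
    (fun n => ENNReal.ofReal ‖A (n + 1) t k - A n t k‖) (fun n => by
      rw [edist_dist, dist_eq_norm, norm_sub_rev]) h1 J
  rw [edist_dist, dist_eq_norm, norm_sub_rev] at h2
  exact h2

theorem tri (x y z : C3) : ENNReal.ofReal ‖x - z‖
    ≤ ENNReal.ofReal ‖x - y‖ + ENNReal.ofReal ‖y - z‖ := by
  rw [← ENNReal.ofReal_add (norm_nonneg _) (norm_nonneg _)]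
  exact ENNReal.ofReal_le_ofReal (norm_sub_le_norm_sub_add_norm_sub x y z)

theorem bN_tri {q : ℝ} (hq : 1 ≤ q) (a b c : Cf) :
    bN q (fun k => ENNReal.ofReal ‖a k - c k‖)
      ≤ bN q (fun k => ENNReal.ofReal ‖a k - b k‖) + bN q (fun k => ENNReal.ofReal ‖b k - c k‖) :=
  (bN_mono (by linarith) fun k => tri (a k) (b k) (c k)).trans (bN_add hq _ _)

theorem bN_comm (q : ℝ) (a b : Cf) :
    bN q (fun k => ENNReal.ofReal ‖a k - b k‖) = bN q (fun k => ENNReal.ofReal ‖b k - a k‖) := by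
  simp_rw [norm_sub_rev]

theorem bN_split {q : ℝ} (hq : 1 ≤ q) {A : ℕ → ℝ → Cf} {b : ℝ → Cf} {t : ℝ} (c : Cf)
    (hlim : ∀ k, Tendsto (fun j => A (j + 1) t k) atTop (𝓝 (b t k))) (J : ℕ) :
    bN q (fun k => ENNReal.ofReal ‖b t k - c k‖)
      ≤ ∑' i, bN q (fun k => ENNReal.ofReal ‖A (J + i + 1) t k - A (J + i) t k‖)
        + (bN q (fun k => ENNReal.ofReal ‖A J t k - A J 0 k‖)
        + bN q (fun k => ENNReal.ofReal ‖A J 0 k - c k‖)) := by
  refine (bN_tri hq (b t) (A J t) c).trans (add_le_add ?_ (bN_tri hq _ _ _))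
  exact (bN_mono (by linarith) fun k => tel hlim J k).trans (bN_tsum hq _)

/-- The first elementary bound for differences. -/
theorem bN_le {q : ℝ} (hq : 2 < q) {a b : Cf} (h0 : a 0 = b 0)
    (hs : Summable fun k => ‖a k - b k‖) {X : ℝ} (hX : ∑' k, ‖a k - b k‖ ≤ X) :
    bN q (fun k => ENNReal.ofReal ‖a k - b k‖) ≤ ENNReal.ofReal X := by
  refine bN_le_sum hq (fun k => norm_nonneg _) (by rw [h0, sub_self, norm_zero]) hs
    (le_trans ?_ hX)
  have h1 : ∀ k, ‖a k - b k‖ / len k ≤ ‖a k - b k‖ := by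
    intro k
    by_cases hk : k = 0
    · subst hk
      rw [len_zero, div_zero]
      exact norm_nonneg _
    · exact div_le_self (norm_nonneg _) (one_le_len hk)
  exact (Summable.of_nonneg_of_le (fun k => div_nonneg (norm_nonneg _) (len_nonneg k)) h1
    hs).tsum_le_tsum h1 hs

section
variable {C₀ ν δ : ℝ} {U : ℝ → Cf} {c : Cf} {z : ℕ → Cf} {A : ℕ → ℝ → Cf} {ε : ℕ → ℝ}

theorem Gam_nonneg (z : Cf) (U : Cf) : 0 ≤ ∑' k, ‖z k - U k‖ / len k :=
  tsum_nonneg fun k => div_nonneg (norm_nonneg _) (len_nonneg k)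

/-- `ε ^ p * Mn` for exponents `p ≥ 1 / (n + 1)`. -/
theorem pow_Mn (hC₀ : 0 < C₀) (hν : 0 < ν) (hε0 : ∀ n, 0 < ε n) (hε1 : ∀ n, ε n ≤ (1 / 2) ^ n)
    (hM : ∀ n, Mn C₀ ν (z n) (A n) * ε n ^ (1 / ((n : ℝ) + 1)) ≤ (1 / 2) ^ n) {p : ℝ} {n : ℕ}
    (hp : 1 / ((n : ℝ) + 1) ≤ p) : Mn C₀ ν (z n) (A n) * ε n ^ p ≤ (1 / 2) ^ n := by
  have hM0 : 0 ≤ Mn C₀ ν (z n) (A n) := by
    have := Gam_nonneg (z n) (A n 0)
    unfold Mn
    positivity
  refine le_trans (mul_le_mul_of_nonneg_left ?_ hM0) (hM n)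
  exact Real.rpow_le_rpow_of_exponent_ge (hε0 n)
    ((hε1 n).trans (pow_le_one₀ (by norm_num) (by norm_num))) hp

theorem ofReal_half_pow_le {q : ℝ} (hq : 1 ≤ q) (n : ℕ) :
    ENNReal.ofReal ((1 / 2) ^ n) ≤ (ENNReal.ofReal (1 / 2) ^ (1 / q)) ^ n := by
  rw [ENNReal.ofReal_pow (by norm_num)]
  refine pow_le_pow_left' ?_ n
  have h1 : ENNReal.ofReal (1 / 2) ≤ 1 := by
    rw [← ENNReal.ofReal_one]
    exact ENNReal.ofReal_le_ofReal (by norm_num)
  calc ENNReal.ofReal (1 / 2) = ENNReal.ofReal (1 / 2) ^ (1 : ℝ) := (ENNReal.rpow_one _).symm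
    _ ≤ _ := ENNReal.rpow_le_rpow_of_exponent_ge h1 (by
        rw [div_le_one (by linarith)]
        exact hq)

theorem ofReal_half_pow_rpow {q : ℝ} (n : ℕ) :
    ENNReal.ofReal ((1 / 2) ^ n) ^ (1 / q) = (ENNReal.ofReal (1 / 2) ^ (1 / q)) ^ n := by
  rw [ENNReal.ofReal_pow (by norm_num), ← ENNReal.rpow_natCast, ← ENNReal.rpow_natCast,
    ← ENNReal.rpow_mul, ← ENNReal.rpow_mul, mul_comm]

theorem rho_lt {q : ℝ} (hq : 0 < q) : ENNReal.ofReal (1 / 2) ^ (1 / q) < 1 := by
  refine ENNReal.rpow_lt_one ?_ (by positivity)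
  rw [← ENNReal.ofReal_one]
  exact (ENNReal.ofReal_lt_ofReal_iff one_pos).2 (by norm_num)

/-- **The iteration.** -/
theorem iter (hStep : StmStep) (hLim : StmLim) : StmIter := by
  obtain ⟨C₀, hC₀, H⟩ := seqs hStep
  intro ν hν U hU c hc0 hh hd hs δ hδ
  obtain ⟨z, A, ε, hA0, hzs, hzε, hz0, hst, hε0, hε1, hε2, hεa, hM⟩ :=
    H ν hν U hU c hc0 hh hd hs δ hδ
  -- the limit
  obtain ⟨b, hb, hlim⟩ := hLim ν hν (fun j => A (j + 1)) (fun j => ε (j + 1))
    (fun j => (hst j).csol) (fun j => hε0 _) (fun i j hij => hεa (by omega))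
    (by
      refine Summable.of_nonneg_of_le (fun j => (hε0 _).le) (fun j => hε1 (j + 1)) ?_
      exact (summable_nat_add_iff 1).2 (summable_geometric_of_lt_one (by norm_num) (by norm_num)))
    (fun j t ht => (hst (j + 1)).close t ht)
  have htg : ∀ n, Tg ν (A n) := by
    intro n
    cases n with
    | zero => rw [hA0]; exact hU
    | succ n => exact (hst n).tg
  refine ⟨b, hb, ?_, ?_, ?_⟩
  · -- the Besov norms
    intro q hq
    have hq1 : 1 ≤ q := by linarith
    have hq0 : 0 < q := by linarith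
    set ρ : ℝ≥0∞ := ENNReal.ofReal (1 / 2) ^ (1 / q) with hρ
    have hρ1 : ρ < 1 := rho_lt hq0
    obtain ⟨n₀, hn₀⟩ : ∃ n₀ : ℕ, ∀ n, n₀ ≤ n → 1 / ((n : ℝ) + 1) ≤ q - 2 := by
      obtain ⟨n₀, hn₀⟩ := exists_nat_one_div_lt (show 0 < q - 2 by linarith)
      refine ⟨n₀, fun n hn => le_trans ?_ hn₀.le⟩
      exact one_div_le_one_div_of_le (by positivity) (by
        have : (n₀ : ℝ) ≤ n := by exact_mod_cast hn
        linarith)
    have hE : ∀ n, n₀ ≤ n → ENNReal.ofReal (ε n ^ (q - 2)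
        * (C₀ * ν * ∑' k, ‖z n k - A n 0 k‖ / len k)) ^ (1 / q) ≤ ρ ^ n := by
      intro n hn
      rw [hρ, ← ofReal_half_pow_rpow]
      refine ENNReal.rpow_le_rpow (ENNReal.ofReal_le_ofReal ?_) (by positivity)
      refine le_trans ?_ (pow_Mn hC₀ hν hε0 hε1 hM (hn₀ n hn))
      rw [mul_comm]
      refine mul_le_mul_of_nonneg_right ?_ (Real.rpow_nonneg (hε0 n).le _)
      have := Gam_nonneg (z n) (A n 0)
      rw [Mn]
      nlinarith [mul_nonneg hC₀.le this]
    have hg : ∀ n, ENNReal.ofReal ((1 / 2) ^ n) ≤ ρ ^ n := fun n => ofReal_half_pow_le hq1 n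
    have hcz : ∀ n, bN q (fun k => ENNReal.ofReal ‖c k - z n k‖) ≤ ρ ^ n := fun n =>
      (bN_le hq (by rw [hc0, hz0]) (hzs n) (hzε n)).trans (hg n)
    have hw : ∀ n, n₀ ≤ n → bN q (fun k => ENNReal.ofReal ‖A (n + 1) 0 k - z n k‖) ≤ ρ ^ n :=
      fun n hn => ((hst n).one q hq).trans (hE n hn)
    have hAc : ∀ n, n₀ ≤ n → bN q (fun k => ENNReal.ofReal ‖A (n + 1) 0 k - c k‖)
        ≤ 2 * ρ ^ n := by
      intro n hn
      refine (bN_tri hq1 _ (z n) _).trans ?_
      rw [bN_comm q (z n) c, two_mul]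
      exact add_le_add (hw n hn) (hcz n)
    have hzA : ∀ n, n₀ ≤ n → bN q (fun k => ENNReal.ofReal ‖z (n + 1) k - A (n + 1) 0 k‖)
        ≤ 3 * ρ ^ n := by
      intro n hn
      refine (bN_tri hq1 _ c _).trans ?_
      rw [bN_comm q (z (n + 1)) c, bN_comm q c (A (n + 1) 0)]
      calc _ ≤ ρ ^ n + 2 * ρ ^ n := by
            refine add_le_add ((hcz (n + 1)).trans ?_) (hAc n hn)
            exact pow_le_pow_right_of_le_one' hρ1.le (Nat.le_succ n)
        _ = 3 * ρ ^ n := by ring
    have hD : ∀ n, n₀ ≤ n → ∀ t, 0 ≤ t →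
        bN q (fun k => ENNReal.ofReal ‖A (n + 1 + 1) t k - A (n + 1) t k‖)
          ≤ (ENNReal.ofReal C₀ * 3 + 2) * ρ ^ n := by
      intro n hn t ht
      have h3 : ρ ^ (n + 1) ≤ ρ ^ n := pow_le_pow_right_of_le_one' hρ1.le (Nat.le_succ n)
      calc _ ≤ _ := (hst (n + 1)).two q hq t ht
        _ ≤ ENNReal.ofReal C₀ * (3 * ρ ^ n) + ρ ^ n + ρ ^ n := by
            refine add_le_add (add_le_add (mul_le_mul' le_rfl (hzA n hn)) ?_) ?_
            · exact (hE (n + 1) (by omega)).trans h3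
            · exact ((ENNReal.ofReal_le_ofReal (hε1 (n + 1))).trans (hg (n + 1))).trans h3
        _ = _ := by ring
    have hsum : ∑' n : ℕ, (ENNReal.ofReal C₀ * 3 + 2) * ρ ^ n ≠ ⊤ := by
      rw [ENNReal.tsum_mul_left, ENNReal.tsum_geometric]
      refine ENNReal.mul_ne_top ?_ ?_
      · exact ENNReal.add_ne_top.2 ⟨ENNReal.mul_ne_top ENNReal.ofReal_ne_top (by simp), by simp⟩
      · rw [ne_eq, ENNReal.inv_eq_top, tsub_eq_zero_iff_le, not_le]
        exact hρ1
    have ht1 : Tendsto (fun J : ℕ => ∑' i, (ENNReal.ofReal C₀ * 3 + 2) * ρ ^ (i + J)) atTop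
        (𝓝 0) := ENNReal.tendsto_sum_nat_add _ hsum
    have ht2 : Tendsto (fun J : ℕ => 2 * ρ ^ J) atTop (𝓝 0) := by
      have := ENNReal.Tendsto.const_mul (a := 2)
        (ENNReal.tendsto_pow_atTop_nhds_zero_of_lt_one hρ1) (Or.inr (by simp))
      rwa [mul_zero] at this
    have hbes : Tendsto (fun t => bN q (fun k => ENNReal.ofReal ‖b t k - c k‖)) (𝓝[>] 0)
        (𝓝 0) := by
      rw [ENNReal.tendsto_nhds_zero]
      intro η hη
      have hη3 : 0 < η / 3 := ENNReal.div_pos hη.ne' (by simp)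
      obtain ⟨J, hJ1, hJ2, hJ0⟩ := (((ENNReal.tendsto_nhds_zero.1 ht1) (η / 3) hη3).and
        (((ENNReal.tendsto_nhds_zero.1 ht2) (η / 3) hη3).and (eventually_ge_atTop n₀))).exists
      -- continuity at zero of the solution number `J + 1`
      have hcon : ∀ᶠ t in 𝓝[>] (0 : ℝ),
          bN q (fun k => ENNReal.ofReal ‖A (J + 1) t k - A (J + 1) 0 k‖) ≤ η / 3 := by
        have hm : Maj (fun t => A (J + 1) t - A (J + 1) 0) := by
          refine Maj.sub (htg (J + 1)).maj ?_
          intro n T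
          obtain ⟨B, hB, h⟩ := (htg (J + 1)).maj n 0
          exact ⟨B, hB, fun t _ k => h 0 ⟨le_rfl, le_rfl⟩ k⟩
        have hcn : Cnt (fun t => A (J + 1) t - A (J + 1) 0) :=
          Cnt.sub (LSol.cnt (htg (J + 1)).toLSol) fun k => continuousOn_const
        have h1 := (hm.cont hcn wt_one) 0 (by simp)
        have h2 : Tendsto (fun t => ENNReal.ofReal (W (fun _ => 1)
            (A (J + 1) t - A (J + 1) 0))) (𝓝[>] 0) (𝓝 0) := by
          have h3 : W (fun _ => 1) (A (J + 1) 0 - A (J + 1) 0) = 0 := by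
            rw [W]
            simp
          have h4 : Tendsto (fun t => W (fun _ => 1) (A (J + 1) t - A (J + 1) 0)) (𝓝[>] 0)
              (𝓝 0) := by
            have h5 := (ContinuousWithinAt.mono h1 (Ioi_subset_Ici_self)).tendsto
            rwa [h3] at h5
          have := (ENNReal.continuous_ofReal.tendsto 0).comp h4
          rwa [ENNReal.ofReal_zero] at this
        filter_upwards [(ENNReal.tendsto_nhds_zero.1 h2) (η / 3) hη3, self_mem_nhdsWithin]
          with t ht ht0
        have ht0' : (0 : ℝ) ≤ t := (show (0 : ℝ) < t from ht0).le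
        refine le_trans (bN_le hq ?_ ?_ ?_) ht
        · rw [(htg (J + 1)).zero t ht0', (htg (J + 1)).zero 0 le_rfl]
        · have := hm.l1 ht0'
          exact this
        · refine le_of_eq ?_
          rw [W]
          exact tsum_congr fun k => by rw [one_mul, Pi.sub_apply]
      filter_upwards [hcon, self_mem_nhdsWithin] with t ht ht0
      have ht0' : 0 < t := ht0
      refine (bN_split hq1 c (hlim t ht0') (J + 1)).trans ?_
      calc _ ≤ η / 3 + (η / 3 + η / 3) := by
            refine add_le_add (le_trans (ENNReal.tsum_le_tsum fun i => ?_) hJ1)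
              (add_le_add ht ((hAc J hJ0).trans hJ2))
            have h6 := hD (i + J) (by omega) t ht0'.le
            have h7 : J + 1 + i = i + J + 1 := by omega
            rw [h7]
            exact h6
        _ = η := by
            rw [← add_assoc]
            exact ENNReal.add_thirds η
    have := (ENNReal.continuous_rpow_const (y := q)).tendsto 0 |>.comp hbes
    rw [ENNReal.zero_rpow_of_pos hq0] at this
    refine this.congr fun t => ?_
    exact (besC_eq hq0 _).symm
  · -- integrability in time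
    intro r hr0 hr2
    have hbc : ∀ k, ContinuousOn (fun t => b t k) (Ioi 0) := by
      intro k t ht
      have ht' : 0 < t := ht
      have h1 := ((hb (t / 2) (by positivity)).der (t / 2) (by positivity) k).continuousWithinAt
      have h2 : ContinuousWithinAt (fun s => b s k) (Ici (t / 2)) t := by
        have h3 : ContinuousWithinAt (fun s => (fun s => b (s + t / 2) k) (s - t / 2))
            (Ici (t / 2)) t := by
          refine ContinuousWithinAt.comp (t := Ici 0) (g := fun s => b (s + t / 2) k) ?_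
            ((continuous_id.sub continuous_const).continuousWithinAt) fun s hs => ?_
          · rw [show t - t / 2 = t / 2 by ring]
            exact h1
          · have : t / 2 ≤ s := hs
            simp only [mem_Ici, id]
            linarith
        refine h3.congr (fun s _ => ?_) ?_ <;> simp
      exact (h2.continuousAt (Ici_mem_nhds (by linarith))).continuousWithinAt
    refine real_Lr hbc (fun r hr1 hr2 => ?_) hr0 hr2
    have hr0 : 0 < r := by linarith
    set ρ : ℝ≥0∞ := ENNReal.ofReal (1 / 2) ^ (1 / r) with hρ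
    have hρ1 : ρ < 1 := rho_lt hr0
    obtain ⟨J, hJ⟩ : ∃ n₀ : ℕ, ∀ n, n₀ ≤ n → 1 / ((n : ℝ) + 1) ≤ 1 - r / 2 := by
      obtain ⟨n₀, hn₀⟩ := exists_nat_one_div_lt (show 0 < 1 - r / 2 by linarith)
      refine ⟨n₀, fun n hn => le_trans ?_ hn₀.le⟩
      exact one_div_le_one_div_of_le (by positivity) (by
        have : (n₀ : ℝ) ≤ n := by exact_mod_cast hn
        linarith)
    obtain ⟨M, hMJ⟩ := (htg J).bd
    have hpt : ∀ t ∈ Ioc (0 : ℝ) 1, ∑' k, ENNReal.ofReal ‖b t k‖
        ≤ ENNReal.ofReal M + ∑' i, Sd (A (J + i + 1) t) (A (J + i) t) := by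
      intro t ht
      have h1 : ∑' k, ENNReal.ofReal ‖A J t k‖ ≤ ENNReal.ofReal M := by
        refine ENNReal.summable.tsum_le_of_sum_le fun B => ?_
        rw [← ENNReal.ofReal_sum_of_nonneg fun k _ => norm_nonneg _]
        exact ENNReal.ofReal_le_ofReal (hMJ t ht.1.le B)
      calc ∑' k, ENNReal.ofReal ‖b t k‖
          ≤ ∑' k, (ENNReal.ofReal ‖A J t k‖
            + ∑' i, ENNReal.ofReal ‖A (J + i + 1) t k - A (J + i) t k‖) := by
            refine ENNReal.tsum_le_tsum fun k => ?_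
            have h2 := tri (b t k) (A J t k) 0
            rw [sub_zero, sub_zero, add_comm] at h2
            exact h2.trans (add_le_add le_rfl (tel (hlim t ht.1) J k))
        _ = ∑' k, ENNReal.ofReal ‖A J t k‖ + ∑' i, Sd (A (J + i + 1) t) (A (J + i) t) := by
            rw [ENNReal.tsum_add]
            congr 1
            rw [ENNReal.tsum_comm]
            rfl
        _ ≤ _ := add_le_add h1 le_rfl
    have hms : ∀ i, AEMeasurable (fun t => Sd (A (J + i + 1) t) (A (J + i) t))
        (volume.restrict (Ioc (0 : ℝ) 1)) := fun i =>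
      Sd_meas (LSol.cnt (htg _).toLSol) (LSol.cnt (htg _).toLSol)
    have hfin : Nq (volume.restrict (Ioc (0 : ℝ) 1)) r (fun t => ∑' k, ENNReal.ofReal ‖b t k‖)
        < ⊤ := by
      calc _ ≤ Nq (volume.restrict (Ioc (0 : ℝ) 1)) r
            (fun t => ENNReal.ofReal M + ∑' i, Sd (A (J + i + 1) t) (A (J + i) t)) := by
            refine Nq_mono hr0.le ?_
            filter_upwards [self_mem_ae_restrict measurableSet_Ioc] with t ht
            exact hpt t ht
        _ ≤ Nq (volume.restrict (Ioc (0 : ℝ) 1)) r (fun _ => ENNReal.ofReal M)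
            + ∑' i, Nq (volume.restrict (Ioc (0 : ℝ) 1)) r
              (fun t => Sd (A (J + i + 1) t) (A (J + i) t)) :=
            (Nq_add hr1 aemeasurable_const (AEMeasurable.tsum hms)).trans
              (add_le_add le_rfl (Nq_tsum hr1 hms))
        _ ≤ Nq (volume.restrict (Ioc (0 : ℝ) 1)) r (fun _ => ENNReal.ofReal M)
            + ∑' i : ℕ, 2 * ρ ^ i := by
            refine add_le_add le_rfl (ENNReal.tsum_le_tsum fun i => ?_)
            refine (step_Lr hC₀ hν (htg _) (hst (J + i)) (hε0 _)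
              ((hε1 _).trans (pow_le_one₀ (by norm_num) (by norm_num))) (hε1 _) hr1 hr2
              (pow_Mn hC₀ hν hε0 hε1 hM (hJ (J + i) (by omega)))).trans ?_
            rw [ofReal_half_pow_rpow]
            exact mul_le_mul' le_rfl (pow_le_pow_right_of_le_one' hρ1.le (by omega))
        _ < ⊤ := by
            refine ENNReal.add_lt_top.2 ⟨?_, ?_⟩
            · rw [Nq, lintegral_const, Measure.restrict_apply_univ, Real.volume_Ioc]
              refine ENNReal.rpow_lt_top_of_nonneg (by positivity) (ENNReal.mul_ne_top ?_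
                ENNReal.ofReal_ne_top)
              exact ENNReal.rpow_ne_top_of_nonneg hr0.le ENNReal.ofReal_ne_top
            · rw [ENNReal.tsum_mul_left, ENNReal.tsum_geometric]
              refine ENNReal.mul_lt_top (by simp) ?_
              rw [ENNReal.inv_lt_top]
              exact tsub_pos_of_lt hρ1
    rw [Nq] at hfin
    exact (ENNReal.rpow_lt_top_iff_of_pos (by positivity)).1 hfin
  · -- closeness
    intro t ht B
    have hnn : ∀ n, ∑ k ∈ B, ‖A n t k - U t k‖ ≤ ∑ i ∈ Finset.range n, ε i := by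
      intro n
      induction n with
      | zero => simp [hA0]
      | succ n ih =>
        rw [Finset.sum_range_succ]
        have h1 : ε n ≤ t := by
          refine (hε2 n).trans (le_trans ?_ ht)
          exact mul_le_of_le_one_right hδ.le (pow_le_one₀ (by norm_num) (by norm_num))
        calc ∑ k ∈ B, ‖A (n + 1) t k - U t k‖
            ≤ ∑ k ∈ B, (‖A (n + 1) t k - A n t k‖ + ‖A n t k - U t k‖) :=
              Finset.sum_le_sum fun k _ => norm_sub_le_norm_sub_add_norm_sub _ _ _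
          _ = ∑ k ∈ B, ‖A (n + 1) t k - A n t k‖ + ∑ k ∈ B, ‖A n t k - U t k‖ :=
              Finset.sum_add_distrib
          _ ≤ _ := by linarith [(hst n).close t h1 B]
    have hεs : ∀ n, ∑ i ∈ Finset.range n, ε i ≤ δ := by
      intro n
      calc ∑ i ∈ Finset.range n, ε i ≤ ∑ i ∈ Finset.range n, δ * (1 / 2) ^ (i + 1) :=
            Finset.sum_le_sum fun i _ => hε2 i
        _ = δ * (1 - (1 / 2) ^ n) := by
            rw [← Finset.mul_sum]
            congr 1
            induction n with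
            | zero => simp
            | succ n ih =>
              rw [Finset.sum_range_succ, ih]
              ring
        _ ≤ δ := by
            have : (0 : ℝ) ≤ (1 / 2) ^ n := by positivity
            nlinarith
    have hlim' : Tendsto (fun n => ∑ k ∈ B, ‖A (n + 1) t k - U t k‖) atTop
        (𝓝 (∑ k ∈ B, ‖b t k - U t k‖)) :=
      tendsto_finsetSum _ fun k _ =>
        ((hlim t (hδ.trans_le ht) k).sub tendsto_const_nhds).norm
    exact le_of_tendsto' hlim' fun n => (hnn (n + 1)).trans (hεs (n + 1))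

end

end Pool.Agent.Run7.h969.GS
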