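import Pool.Agent.Run7.h969.GS.Rec

/-!
Integrability in time.
-/

set_option autoImplicit false

open MeasureTheory Set Filter Topology
open scoped ENNReal

namespace Pool.Agent.Run7.h969.GS

open H459R3.NS Pool.Agent.Run7.h782 Pool.Agent.Run7.h782.GD Pool.Agent.Run7.h782.GS

/-- Hölder's inequality on a short interval. -/
theorem holder_short {r : ℝ} (hr0 : 0 < r) (hr2 : r < 2) {f : ℝ → ℝ≥0∞} {s : Set ℝ}
    (hf : AEMeasurable f (volume.restrict s)) {K v : ℝ≥0∞}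
    (hK : ∫⁻ t in s, f t ^ (2 : ℝ) ≤ K) (hv : volume s ≤ v) :
    ∫⁻ t in s, f t ^ r ≤ K ^ (r / 2) * v ^ (1 - r / 2) := by
  have hp : (2 / r).HolderConjugate (2 / (2 - r)) := by
    rw [Real.holderConjugate_iff]
    refine ⟨(one_lt_div hr0).2 hr2, ?_⟩
    rw [inv_div, inv_div]
    ring
  have h1 := ENNReal.lintegral_mul_le_Lp_mul_Lq (volume.restrict s) hp
    (hf.pow_const r) (aemeasurable_const (b := (1 : ℝ≥0∞)))
  have h0 : ∫⁻ t in s, f t ^ r = ∫⁻ t in s, ((fun t => f t ^ r) * fun _ => (1 : ℝ≥0∞) : ℝ → ℝ≥0∞) t :=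
    lintegral_congr fun t => by rw [Pi.mul_apply, mul_one]
  rw [h0]
  refine h1.trans (mul_le_mul' ?_ ?_)
  · have e2 : ∀ t, (f t ^ r) ^ (2 / r) = f t ^ (2 : ℝ) := fun t => by
      rw [← ENNReal.rpow_mul, mul_div_cancel₀ _ hr0.ne']
    simp_rw [e2]
    rw [show 1 / (2 / r) = r / 2 by rw [one_div, inv_div]]
    exact ENNReal.rpow_le_rpow hK (by positivity)
  · simp only [ENNReal.one_rpow, lintegral_const, one_mul, Measure.restrict_apply_univ]
    rw [show 1 / (2 / (2 - r)) = 1 - r / 2 by rw [one_div, inv_div]; ring]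
    exact ENNReal.rpow_le_rpow hv (by linarith)

theorem Sd_meas {a U : ℝ → Cf} (ha : Cnt a) (hU : Cnt U) :
    AEMeasurable (fun t => Sd (a t) (U t)) (volume.restrict (Ioc (0 : ℝ) 1)) := by
  refine AEMeasurable.tsum fun k => ?_
  refine ENNReal.measurable_ofReal.comp_aemeasurable ?_
  refine ContinuousOn.aemeasurable ?_ measurableSet_Ioc
  exact ((ha k).sub (hU k)).norm.mono fun t ht => (show (0 : ℝ) < t from ht.1).le

section
variable {C₀ ν : ℝ} {z : Cf} {U a : ℝ → Cf} {ε : ℝ}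

/-- The `L^r` norm of a step. -/
theorem step_Lr (hC₀ : 0 < C₀) (hν : 0 < ν) (hU : Tg ν U) (h : Stp C₀ ν U z ε a) (hε : 0 < ε)
    (hε1 : ε ≤ 1) {κ : ℝ} (hεκ : ε ≤ κ) {r : ℝ} (hr1 : 1 ≤ r) (hr2 : r < 2)
    (hM : Mn C₀ ν z U * ε ^ (1 - r / 2) ≤ κ) :
    Nq (volume.restrict (Ioc (0 : ℝ) 1)) r (fun t => Sd (a t) (U t))
      ≤ 2 * ENNReal.ofReal κ ^ (1 / r) := by
  have hr0 : 0 < r := by linarith
  have hΓ : 0 ≤ ∑' k, ‖z k - U 0 k‖ / len k :=
    tsum_nonneg fun k => div_nonneg (norm_nonneg _) (len_nonneg k)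
  have hm := Sd_meas (LSol.cnt h.tg.toLSol) (LSol.cnt hU.toLSol)
  have h1 : ∫⁻ t in Ioc (0 : ℝ) ε, Sd (a t) (U t) ^ r ≤ ENNReal.ofReal κ := by
    have h2 := holder_short hr0 hr2 (hm.mono_set (Ioc_subset_Ioc_right hε1))
      (K := ENNReal.ofReal (C₀ * (∑' k, ‖z k - U 0 k‖ / len k) + C₀)) (v := ENNReal.ofReal ε)
      ((lintegral_mono_set (Ioc_subset_Ioc_right hε1)).trans h.int) (by
        rw [Real.volume_Ioc, sub_zero])
    refine h2.trans ?_
    have hK0 : 0 ≤ C₀ * (∑' k, ‖z k - U 0 k‖ / len k) + C₀ := by positivity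
    rw [ENNReal.ofReal_rpow_of_nonneg hK0 (by positivity),
      ENNReal.ofReal_rpow_of_nonneg hε.le (by linarith),
      ← ENNReal.ofReal_mul (Real.rpow_nonneg hK0 _)]
    refine ENNReal.ofReal_le_ofReal (le_trans ?_ hM)
    refine mul_le_mul_of_nonneg_right ?_ (Real.rpow_nonneg hε.le _)
    set K := C₀ * (∑' k, ‖z k - U 0 k‖ / len k) + C₀ with hK
    have hMK : K + 1 ≤ Mn C₀ ν z U := by
      rw [Mn, ← hK]
      have : 0 ≤ C₀ * ν * ∑' k, ‖z k - U 0 k‖ / len k := by positivity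
      linarith
    refine le_trans ?_ hMK
    calc K ^ (r / 2) ≤ (K + 1) ^ (r / 2) :=
          Real.rpow_le_rpow hK0 (by linarith) (by positivity)
      _ ≤ (K + 1) ^ (1 : ℝ) :=
          Real.rpow_le_rpow_of_exponent_le (by linarith) (by linarith)
      _ = K + 1 := Real.rpow_one _
  have h2 : ∫⁻ t in Ioc ε 1, Sd (a t) (U t) ^ r ≤ ENNReal.ofReal κ := by
    have h3 : ∀ t ∈ Ioc ε (1 : ℝ), Sd (a t) (U t) ^ r ≤ ENNReal.ofReal ε := by
      intro t ht
      calc Sd (a t) (U t) ^ r ≤ ENNReal.ofReal ε ^ r :=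
            ENNReal.rpow_le_rpow (Sd_le (h.close t ht.1.le)) hr0.le
        _ ≤ ENNReal.ofReal ε ^ (1 : ℝ) := by
            refine ENNReal.rpow_le_rpow_of_exponent_ge ?_ hr1
            rw [← ENNReal.ofReal_one]
            exact ENNReal.ofReal_le_ofReal hε1
        _ = ENNReal.ofReal ε := ENNReal.rpow_one _
    calc ∫⁻ t in Ioc ε 1, Sd (a t) (U t) ^ r ≤ ∫⁻ _ in Ioc ε (1 : ℝ), ENNReal.ofReal ε :=
          setLIntegral_mono' measurableSet_Ioc h3
      _ = ENNReal.ofReal ε * ENNReal.ofReal (1 - ε) := by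
          rw [lintegral_const, Measure.restrict_apply_univ, Real.volume_Ioc]
      _ ≤ ENNReal.ofReal κ * 1 := by
          refine mul_le_mul' (ENNReal.ofReal_le_ofReal hεκ) ?_
          rw [← ENNReal.ofReal_one]
          exact ENNReal.ofReal_le_ofReal (by linarith)
      _ = _ := mul_one _
  have h3 : ∫⁻ t in Ioc (0 : ℝ) 1, Sd (a t) (U t) ^ r ≤ 2 * ENNReal.ofReal κ := by
    rw [← Ioc_union_Ioc_eq_Ioc hε.le hε1, two_mul]
    exact (lintegral_union_le _ _ _).trans (add_le_add h1 h2)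
  rw [Nq]
  calc (∫⁻ t in Ioc (0 : ℝ) 1, Sd (a t) (U t) ^ r) ^ (1 / r)
      ≤ (2 * ENNReal.ofReal κ) ^ (1 / r) := ENNReal.rpow_le_rpow h3 (by positivity)
    _ = 2 ^ (1 / r) * ENNReal.ofReal κ ^ (1 / r) := ENNReal.mul_rpow_of_nonneg _ _ (by positivity)
    _ ≤ 2 * ENNReal.ofReal κ ^ (1 / r) := by
        refine mul_le_mul' ?_ le_rfl
        calc (2 : ℝ≥0∞) ^ (1 / r) ≤ 2 ^ (1 : ℝ) :=
              ENNReal.rpow_le_rpow_of_exponent_le (by norm_num) (by
                rw [div_le_one hr0]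
                exact hr1)
          _ = 2 := ENNReal.rpow_one _

end

/-- From extended values to real ones. -/
theorem real_Lr {b : ℝ → Cf} (hbc : ∀ k, ContinuousOn (fun t => b t k) (Ioi 0))
    (h : ∀ r : ℝ, 1 ≤ r → r < 2 → ∫⁻ t in Ioc (0 : ℝ) 1, (∑' k, ENNReal.ofReal ‖b t k‖) ^ r < ⊤)
    {r : ℝ} (hr0 : 0 < r) (hr2 : r < 2) :
    IntegrableOn (fun t => (∑' k, ‖b t k‖) ^ r) (Ioc 0 1) := by
  have e0 : ∀ t, ∑' k, ‖b t k‖ = (∑' k, ENNReal.ofReal ‖b t k‖).toReal := by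
    intro t
    rw [ENNReal.tsum_toReal_eq fun k => ENNReal.ofReal_ne_top]
    exact tsum_congr fun k => (ENNReal.toReal_ofReal (norm_nonneg _)).symm
  have hm : AEMeasurable (fun t => ∑' k, ENNReal.ofReal ‖b t k‖)
      (volume.restrict (Ioc (0 : ℝ) 1)) := by
    refine AEMeasurable.tsum fun k => ?_
    refine ENNReal.measurable_ofReal.comp_aemeasurable ?_
    refine ContinuousOn.aemeasurable ?_ measurableSet_Ioc
    exact (hbc k).norm.mono fun t ht => ht.1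
  have hlt : ∫⁻ t in Ioc (0 : ℝ) 1, (∑' k, ENNReal.ofReal ‖b t k‖) ^ r < ⊤ := by
    by_cases hr1 : 1 ≤ r
    · exact h r hr1 hr2
    · have h1 := h 1 le_rfl one_lt_two
      have h2 : ∀ x : ℝ≥0∞, x ^ r ≤ 1 + x ^ (1 : ℝ) := by
        intro x
        rcases le_total x 1 with hx | hx
        · calc x ^ r ≤ 1 ^ r := ENNReal.rpow_le_rpow hx hr0.le
            _ = 1 := ENNReal.one_rpow r
            _ ≤ _ := le_self_add
        · exact (ENNReal.rpow_le_rpow_of_exponent_le hx (not_le.1 hr1).le).trans le_add_self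
      calc ∫⁻ t in Ioc (0 : ℝ) 1, (∑' k, ENNReal.ofReal ‖b t k‖) ^ r
          ≤ ∫⁻ t in Ioc (0 : ℝ) 1, (1 + (∑' k, ENNReal.ofReal ‖b t k‖) ^ (1 : ℝ)) :=
            lintegral_mono fun t => h2 _
        _ = (∫⁻ _ in Ioc (0 : ℝ) 1, (1 : ℝ≥0∞)) + ∫⁻ t in Ioc (0 : ℝ) 1,
              (∑' k, ENNReal.ofReal ‖b t k‖) ^ (1 : ℝ) := lintegral_add_left measurable_const _
        _ < ⊤ := by
            refine ENNReal.add_lt_top.2 ⟨?_, h1⟩
            rw [lintegral_const, Measure.restrict_apply_univ, Real.volume_Ioc]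
            exact ENNReal.mul_lt_top (by simp) ENNReal.ofReal_lt_top
  simp_rw [e0]
  refine ⟨((hm.ennreal_toReal).pow_const r).aestronglyMeasurable, ?_⟩
  rw [HasFiniteIntegral]
  refine lt_of_le_of_lt (lintegral_mono fun t => ?_) hlt
  rw [Real.enorm_eq_ofReal (Real.rpow_nonneg ENNReal.toReal_nonneg _)]
  by_cases ht : ∑' k, ENNReal.ofReal ‖b t k‖ = ⊤
  · rw [ht, ENNReal.top_rpow_of_pos hr0]
    exact le_top
  · rw [← ENNReal.ofReal_rpow_of_nonneg ENNReal.toReal_nonneg hr0.le, ENNReal.ofReal_toReal ht]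

end Pool.Agent.Run7.h969.GS
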