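import Pool.Agent.Run7.h744.GS.P7

/-!
Minkowski's inequality for countable sums, and the Besov norms with extended values.
-/

set_option autoImplicit false

open MeasureTheory Set Filter Topology
open scoped ENNReal

namespace Pool.Agent.Run7.h969.GS

open H459R3.NS Pool.Agent.Run7.h782 Pool.Agent.Run7.h782.GD Pool.Agent.Run7.h782.GS

variable {α : Type*} [MeasurableSpace α]

/-- The `L^q` norm. -/
noncomputable def Nq (μ : Measure α) (q : ℝ) (f : α → ℝ≥0∞) : ℝ≥0∞ :=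
  (∫⁻ a, f a ^ q ∂μ) ^ (1 / q)

theorem Nq_mono {μ : Measure α} {q : ℝ} (hq : 0 ≤ q) {f g : α → ℝ≥0∞}
    (h : ∀ᵐ a ∂μ, f a ≤ g a) : Nq μ q f ≤ Nq μ q g := by
  refine ENNReal.rpow_le_rpow (lintegral_mono_ae ?_) (by positivity)
  filter_upwards [h] with a ha
  exact ENNReal.rpow_le_rpow ha hq

theorem Nq_add {μ : Measure α} {q : ℝ} (hq : 1 ≤ q) {f g : α → ℝ≥0∞} (hf : AEMeasurable f μ)
    (hg : AEMeasurable g μ) : Nq μ q (fun a => f a + g a) ≤ Nq μ q f + Nq μ q g :=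
  ENNReal.lintegral_Lp_add_le hf hg hq

theorem Nq_zero {μ : Measure α} {q : ℝ} (hq : 0 < q) : Nq μ q (fun _ => 0) = 0 := by
  simp [Nq, ENNReal.zero_rpow_of_pos hq, hq]

theorem Nq_sum {μ : Measure α} {q : ℝ} (hq : 1 ≤ q) {f : ℕ → α → ℝ≥0∞}
    (hf : ∀ n, AEMeasurable (f n) μ) (n : ℕ) :
    Nq μ q (fun a => ∑ i ∈ Finset.range n, f i a) ≤ ∑ i ∈ Finset.range n, Nq μ q (f i) := by
  induction n with
  | zero => simp [Nq_zero (μ := μ) (show 0 < q by linarith)]
  | succ n ih =>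
    simp only [Finset.sum_range_succ]
    refine (Nq_add hq ?_ (hf n)).trans (add_le_add ih le_rfl)
    exact Finset.aemeasurable_fun_sum _ fun i _ => hf i

theorem Nq_tsum {μ : Measure α} {q : ℝ} (hq : 1 ≤ q) {f : ℕ → α → ℝ≥0∞}
    (hf : ∀ n, AEMeasurable (f n) μ) :
    Nq μ q (fun a => ∑' n, f n a) ≤ ∑' n, Nq μ q (f n) := by
  have hq0 : 0 < q := by linarith
  set g : ℕ → α → ℝ≥0∞ := fun n a => ∑ i ∈ Finset.range n, f i a with hg
  have hgm : ∀ n, AEMeasurable (g n) μ := fun n =>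
    Finset.aemeasurable_fun_sum _ fun i _ => hf i
  have hmono : ∀ a, Monotone fun n => g n a := fun a m n hmn =>
    Finset.sum_le_sum_of_subset (Finset.range_mono hmn)
  have e1 : ∀ a, (∑' n, f n a) ^ q = ⨆ n, g n a ^ q := by
    intro a
    rw [ENNReal.tsum_eq_iSup_nat]
    exact (ENNReal.orderIsoRpow q hq0).map_iSup _
  have e2 : Nq μ q (fun a => ∑' n, f n a) = ⨆ n, Nq μ q (g n) := by
    rw [Nq]
    simp_rw [e1]
    rw [lintegral_iSup' (fun n => (hgm n).pow_const q)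
      (Eventually.of_forall fun a m n hmn => ENNReal.rpow_le_rpow (hmono a hmn) hq0.le)]
    exact (ENNReal.orderIsoRpow (1 / q) (by positivity)).map_iSup _
  rw [e2]
  refine iSup_le fun n => (Nq_sum hq hf n).trans ?_
  exact ENNReal.sum_le_tsum _

/-- The measure `ds / s`. -/
noncomputable def dss : Measure ℝ :=
  (volume.restrict (Ioi (0 : ℝ))).withDensity fun s => (ENNReal.ofReal s)⁻¹

/-- The heat extension in the sum norm, times `√s`. -/
noncomputable def Fb (c : K3 → ℝ≥0∞) (s : ℝ) : ℝ≥0∞ :=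
  ENNReal.ofReal (Real.sqrt s) * ∑' k, ENNReal.ofReal (ht s k) * c k

theorem Fb_meas (c : K3 → ℝ≥0∞) : Measurable (Fb c) := by
  unfold Fb
  refine (ENNReal.measurable_ofReal.comp Real.continuous_sqrt.measurable).mul ?_
  refine Measurable.tsum fun k => ?_
  exact (ENNReal.measurable_ofReal.comp (h744.GS.ht_cont k).measurable).mul measurable_const

/-- The Besov norm with extended values. -/
noncomputable def bN (q : ℝ) (c : K3 → ℝ≥0∞) : ℝ≥0∞ := Nq dss q (Fb c)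

theorem dss_ae {p : ℝ → Prop} (h : ∀ s, 0 < s → p s) : ∀ᵐ s ∂dss, p s := by
  refine (withDensity_absolutelyContinuous _ _) ?_
  filter_upwards [self_mem_ae_restrict measurableSet_Ioi] with s hs
  exact h s hs

theorem lintegral_dss {g : ℝ → ℝ≥0∞} (hg : Measurable g) :
    ∫⁻ s, g s ∂dss = ∫⁻ s in Ioi (0 : ℝ), g s / ENNReal.ofReal s := by
  have hm : Measurable fun s : ℝ => (ENNReal.ofReal s)⁻¹ := ENNReal.measurable_ofReal.inv
  rw [dss, lintegral_withDensity_eq_lintegral_mul _ hm hg]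
  refine lintegral_congr fun s => ?_
  rw [Pi.mul_apply, mul_comm, div_eq_mul_inv]

theorem bN_mono {q : ℝ} (hq : 0 ≤ q) {c d : K3 → ℝ≥0∞} (h : ∀ k, c k ≤ d k) :
    bN q c ≤ bN q d :=
  Nq_mono hq (Eventually.of_forall fun _ => mul_le_mul' le_rfl
    (ENNReal.tsum_le_tsum fun k => mul_le_mul' le_rfl (h k)))

theorem Fb_add (c d : K3 → ℝ≥0∞) (s : ℝ) : Fb (fun k => c k + d k) s = Fb c s + Fb d s := by
  simp only [Fb, mul_add, ENNReal.tsum_add]

theorem bN_add {q : ℝ} (hq : 1 ≤ q) (c d : K3 → ℝ≥0∞) :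
    bN q (fun k => c k + d k) ≤ bN q c + bN q d := by
  refine le_trans (le_of_eq ?_) (Nq_add hq (Fb_meas c).aemeasurable (Fb_meas d).aemeasurable)
  rw [bN]
  exact congrArg (Nq dss q) (funext fun s => Fb_add c d s)

theorem bN_tsum {q : ℝ} (hq : 1 ≤ q) (c : ℕ → K3 → ℝ≥0∞) :
    bN q (fun k => ∑' n, c n k) ≤ ∑' n, bN q (c n) := by
  refine le_trans (le_of_eq ?_) (Nq_tsum hq fun n => (Fb_meas (c n)).aemeasurable)
  rw [bN]
  refine congrArg (Nq dss q) (funext fun s => ?_)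
  simp only [Fb]
  rw [ENNReal.tsum_mul_left]
  congr 1
  rw [ENNReal.tsum_comm]
  exact tsum_congr fun k => ENNReal.tsum_mul_left.symm

theorem bN_eq {q : ℝ} (c : K3 → ℝ) :
    bN q (fun k => ENNReal.ofReal (c k)) = (besC q c) ^ (1 / q) := by
  rw [bN, Nq, lintegral_dss ((Fb_meas _).pow_const q), besC]
  congr 1
  refine lintegral_congr fun s => ?_
  have e : ∀ k : K3, ENNReal.ofReal (ht s k) * ENNReal.ofReal (c k)
      = ENNReal.ofReal (ht s k * c k) := fun k =>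
    (ENNReal.ofReal_mul (h744.GS.ht_pos s k).le).symm
  simp only [Fb, e]

theorem besC_eq {q : ℝ} (hq : 0 < q) (c : K3 → ℝ) :
    besC q c = bN q (fun k => ENNReal.ofReal (c k)) ^ q := by
  rw [bN_eq, ← ENNReal.rpow_mul, one_div, inv_mul_cancel₀ hq.ne', ENNReal.rpow_one]

/-- The first elementary bound. -/
theorem bN_le_sum {q : ℝ} (hq : 2 < q) {c : K3 → ℝ} (hc : ∀ k, 0 ≤ c k) (h0 : c 0 = 0)
    (hs : Summable c) {X : ℝ} (hX : ∑' k, c k / len k ≤ X) :
    bN q (fun k => ENNReal.ofReal (c k)) ≤ ENNReal.ofReal X := by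
  have hq0 : 0 < q := by linarith
  have h1 : 0 ≤ ∑' k, c k / len k := tsum_nonneg fun k => div_nonneg (hc k) (len_nonneg k)
  have h2 := h744.GS.bes_one q hq c hc h0 hs
  rw [one_mul] at h2
  rw [bN_eq]
  calc besC q c ^ (1 / q) ≤ (ENNReal.ofReal ((∑' k, c k / len k) ^ q)) ^ (1 / q) :=
        ENNReal.rpow_le_rpow h2 (by positivity)
    _ = ENNReal.ofReal (∑' k, c k / len k) := by
        rw [ENNReal.ofReal_rpow_of_nonneg (Real.rpow_nonneg h1 _) (by positivity),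
          ← Real.rpow_mul h1, mul_one_div_cancel hq0.ne', Real.rpow_one]
    _ ≤ ENNReal.ofReal X := ENNReal.ofReal_le_ofReal hX

end Pool.Agent.Run7.h969.GS
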