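import Pool.Agent.Run7.h969.GS.Stp
import Pool.Agent.Run7.h782.GS.Defs2

/-!
The sequence of the iteration.
-/

set_option autoImplicit false

open MeasureTheory Set Filter Topology
open scoped ENNReal

namespace Pool.Agent.Run7.h969.GS

open H459R3.NS Pool.Agent.Run7.h782 Pool.Agent.Run7.h782.GD Pool.Agent.Run7.h782.GS

theorem exists_rec {X : Type*} (P : X → Prop) (R : ℕ → X → X → Prop) (x₀ : X) (h0 : P x₀)
    (h : ∀ n x, P x → ∃ y, P y ∧ R n x y) :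
    ∃ f : ℕ → X, f 0 = x₀ ∧ (∀ n, P (f n)) ∧ ∀ n, R n (f n) (f (n + 1)) := by
  classical
  choose! g hg using h
  let f : ℕ → X := fun n => Nat.rec x₀ (fun n x => g n x) n
  have hf : ∀ n, P (f n) := by
    intro n
    induction n with
    | zero => exact h0
    | succ n ih => exact (hg n (f n) ih).1
  exact ⟨f, rfl, hf, fun n => (hg n (f n) (hf n)).2⟩

/-- Truncations. -/
theorem trunc {c : Cf} (hc0 : c 0 = 0) (hh : Herm c) (hd : Dv c)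
    (hs : Summable fun k => ‖c k‖) {ε : ℝ} (hε : 0 < ε) :
    ∃ (Z : Finset K3) (z : Cf), (0 : K3) ∉ Z ∧ (∀ k ∉ Z, z k = 0) ∧ Herm z ∧ Dv z ∧
      (Summable fun k => ‖c k - z k‖) ∧ ∑' k, ‖c k - z k‖ ≤ ε := by
  classical
  obtain ⟨A, hA⟩ := ((tendsto_tsum_compl_atTop_zero (fun k => ‖c k‖)).eventually
    (gt_mem_nhds hε)).exists_forall_of_atTop
  set Y : Finset K3 := A ∪ A.image (fun k => -k) with hY
  have hYA : A ⊆ Y := Finset.subset_union_left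
  have hYn : ∀ k, k ∈ Y → -k ∈ Y := by
    intro k hk
    rw [hY, Finset.mem_union, Finset.mem_image] at hk ⊢
    rcases hk with hk | ⟨l, hl, rfl⟩
    · exact Or.inr ⟨k, hk, rfl⟩
    · left
      rwa [neg_neg]
  have hYn' : ∀ k, -k ∈ Y ↔ k ∈ Y := fun k =>
    ⟨fun h => by simpa using hYn _ h, hYn k⟩
  set z : Cf := fun k => if k ∈ Y then c k else 0 with hz
  have hcz : ∀ k, ‖c k - z k‖ = if k ∈ Y then 0 else ‖c k‖ := by
    intro k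
    simp only [hz]
    split_ifs with h
    · rw [sub_self, norm_zero]
    · rw [sub_zero]
  have hle : ∀ k, ‖c k - z k‖ ≤ ‖c k‖ := by
    intro k
    rw [hcz]
    split_ifs
    · exact norm_nonneg _
    · exact le_rfl
  have hsz : Summable fun k => ‖c k - z k‖ :=
    Summable.of_nonneg_of_le (fun _ => norm_nonneg _) hle hs
  refine ⟨Y.erase 0, z, Finset.notMem_erase _ _, ?_, ?_, ?_, hsz, ?_⟩
  · intro k hk
    simp only [hz]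
    split_ifs with h
    · by_cases hk0 : k = 0
      · rw [hk0, hc0]
      · exact absurd (Finset.mem_erase.2 ⟨hk0, h⟩) hk
    · rfl
  · intro k i
    simp only [hz, hYn']
    split_ifs with h
    · exact hh k i
    · simp
  · intro k
    simp only [hz]
    split_ifs with h
    · exact hd k
    · exact kd_zero_right k
  · have h1 : ∑' k, ‖c k - z k‖ = ∑' k : {k // k ∉ Y}, ‖c k‖ := by
      rw [← hsz.sum_add_tsum_compl (s := Y)]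
      have h2 : ∑ k ∈ Y, ‖c k - z k‖ = 0 := by
        refine Finset.sum_eq_zero fun k hk => ?_
        rw [hcz, if_pos hk]
      rw [h2, zero_add]
      refine tsum_congr fun k => ?_
      have hk : (k : K3) ∉ Y := fun h => k.2 (Finset.mem_coe.2 h)
      rw [hcz, if_neg hk]
    rw [h1]
    exact (hA Y hYA).le

/-- The size of the constants of step `n`. -/
noncomputable def Mn (C₀ ν : ℝ) (z : Cf) (U : ℝ → Cf) : ℝ :=
  C₀ * ν * (∑' k, ‖z k - U 0 k‖ / len k) + (C₀ * (∑' k, ‖z k - U 0 k‖ / len k) + C₀) + 1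

theorem small_pow (M p κ : ℝ) (hp : 0 < p) (hκ : 0 < κ) : ∀ᶠ ε in 𝓝[>] (0 : ℝ), M * ε ^ p ≤ κ := by
  have h1 : Tendsto (fun ε : ℝ => M * ε ^ p) (𝓝 0) (𝓝 (M * 0 ^ p)) :=
    (Real.continuousAt_rpow_const 0 p (Or.inr hp.le)).tendsto.const_mul M
  rw [Real.zero_rpow hp.ne', mul_zero] at h1
  exact (h1.mono_left nhdsWithin_le_nhds).eventually (ge_mem_nhds hκ)

/-- The sequence. -/
theorem seqs (hStep : StmStep) : ∃ C₀ : ℝ, 0 < C₀ ∧ ∀ (ν : ℝ), 0 < ν → ∀ U : ℝ → Cf, Tg ν U →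
    ∀ c : Cf, c 0 = 0 → Herm c → Dv c → (Summable fun k => ‖c k‖) → ∀ δ : ℝ, 0 < δ →
    ∃ (z : ℕ → Cf) (A : ℕ → ℝ → Cf) (ε : ℕ → ℝ), A 0 = U ∧
      (∀ n, Summable fun k => ‖c k - z n k‖) ∧ (∀ n, ∑' k, ‖c k - z n k‖ ≤ (1 / 2) ^ n) ∧
      (∀ n, z n 0 = 0) ∧ (∀ n, Stp C₀ ν (A n) (z n) (ε n) (A (n + 1))) ∧
      (∀ n, 0 < ε n) ∧ (∀ n, ε n ≤ (1 / 2) ^ n) ∧ (∀ n, ε n ≤ δ * (1 / 2) ^ (n + 1)) ∧
      Antitone ε ∧ (∀ n, Mn C₀ ν (z n) (A n) * ε n ^ (1 / ((n : ℝ) + 1)) ≤ (1 / 2) ^ n) := by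
  obtain ⟨C₀, hC₀, H⟩ := stp_of_step hStep
  refine ⟨C₀, hC₀, fun ν hν U hU c hc0 hh hd hs δ hδ => ?_⟩
  have hz : ∀ n : ℕ, ∃ z : Cf, ∃ Z : Finset K3, (0 : K3) ∉ Z ∧ (∀ k ∉ Z, z k = 0) ∧ Herm z ∧
      Dv z ∧ (Summable fun k => ‖c k - z k‖) ∧ ∑' k, ‖c k - z k‖ ≤ (1 / 2) ^ n := by
    intro n
    obtain ⟨Z, z, h⟩ := trunc hc0 hh hd hs (ε := (1 / 2 : ℝ) ^ n) (by positivity)
    exact ⟨z, Z, h⟩
  choose z Z hZ0 hzZ hzh hzd hzs hzε using hz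
  obtain ⟨f, hf0, hP, hR⟩ := exists_rec (X := (ℝ → Cf) × ℝ)
    (fun x => Tg ν x.1 ∧ 0 < x.2)
    (fun n x y => Stp C₀ ν x.1 (z n) y.2 y.1 ∧ y.2 ≤ x.2 ∧ y.2 ≤ (1 / 2) ^ n ∧
      y.2 ≤ δ * (1 / 2) ^ (n + 1) ∧ Mn C₀ ν (z n) x.1 * y.2 ^ (1 / ((n : ℝ) + 1)) ≤ (1 / 2) ^ n)
    (U, 1) ⟨hU, one_pos⟩ (by
      rintro n ⟨a, e⟩ ⟨ha, he⟩
      have e1 : ∀ᶠ ε in 𝓝[>] (0 : ℝ), 0 < ε := self_mem_nhdsWithin
      have e2 : ∀ κ : ℝ, 0 < κ → ∀ᶠ ε in 𝓝[>] (0 : ℝ), ε ≤ κ := fun κ hκ =>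
        nhdsWithin_le_nhds (ge_mem_nhds hκ)
      obtain ⟨ε, h1, h2, h3, h4, h5⟩ := (e1.and ((e2 e he).and ((e2 ((1 / 2) ^ n)
        (by positivity)).and ((e2 (δ * (1 / 2) ^ (n + 1)) (by positivity)).and
          (small_pow (Mn C₀ ν (z n) a) (1 / ((n : ℝ) + 1)) ((1 / 2) ^ n) (by positivity)
            (by positivity)))))).exists
      obtain ⟨b, hb⟩ := H ν hν a ha (Z n) (z n) (hZ0 n) (hzZ n) (hzh n) (hzd n) ε h1
      exact ⟨(b, ε), ⟨hb.tg, h1⟩, hb, h2, h3, h4, h5⟩)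
  refine ⟨z, fun n => (f n).1, fun n => (f (n + 1)).2, by simp [hf0], hzs, hzε,
    fun n => hzZ n 0 (hZ0 n), fun n => (hR n).1, fun n => (hP (n + 1)).2, fun n => (hR n).2.2.1,
    fun n => (hR n).2.2.2.1, ?_, fun n => (hR n).2.2.2.2⟩
  exact antitone_nat_of_succ_le fun n => (hR (n + 1)).2.1

end Pool.Agent.Run7.h969.GS
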