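import Pool.Agent.Run7.h969.GS.Mink
import Pool.Agent.Run7.h782.GS.Nrm

/-!
One step of the iteration: bounds with extended values.
-/

set_option autoImplicit false

open MeasureTheory Set Filter Topology
open scoped ENNReal

namespace Pool.Agent.Run7.h969.GS

open H459R3.NS Pool.Agent.Run7.h782 Pool.Agent.Run7.h782.GD Pool.Agent.Run7.h782.GS

section
variable {α : Type*} [MeasurableSpace α]

theorem Nq_const_mul {μ : Measure α} {q : ℝ} (hq : 0 < q) {c : ℝ≥0∞} (hc : c ≠ ⊤)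
    (f : α → ℝ≥0∞) : Nq μ q (fun a => c * f a) = c * Nq μ q f := by
  rw [Nq, Nq]
  simp_rw [ENNReal.mul_rpow_of_nonneg _ _ hq.le]
  rw [lintegral_const_mul' _ _ (ENNReal.rpow_ne_top_of_nonneg hq.le hc),
    ENNReal.mul_rpow_of_nonneg _ _ (by positivity), ← ENNReal.rpow_mul,
    mul_one_div_cancel hq.ne', ENNReal.rpow_one]
end

theorem h_bound {q : ℝ} (hq : 2 < q) {h : ℝ → ℝ} {δ H : ℝ} (hδ : 0 ≤ δ) (hcont : Continuous h)
    (h0 : ∀ s, 0 < s → 0 ≤ h s) (hle : ∀ s, 0 < s → h s ≤ δ / Real.sqrt s)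
    (hH : ∀ T, 0 ≤ T → ∫ s in (0 : ℝ)..T, h s ^ 2 ≤ H) :
    Nq dss q (fun s => ENNReal.ofReal (Real.sqrt s) * ENNReal.ofReal (h s))
      ≤ ENNReal.ofReal (δ ^ (q - 2) * H) ^ (1 / q) := by
  have hint : IntegrableOn (fun s => h s ^ 2) (Ioi 0) := by
    refine integrableOn_Ioi_of_intervalIntegral_norm_bounded (l := atTop) (b := fun n : ℝ => n)
      H 0 (fun i => ?_) tendsto_id ?_
    · exact ((hcont.pow 2).integrableOn_Icc (a := 0) (b := i)).mono_set Ioc_subset_Icc_self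
    · filter_upwards [eventually_ge_atTop (0 : ℝ)] with T hT
      have : ∀ s, ‖h s ^ 2‖ = h s ^ 2 := fun s => by
        rw [Real.norm_eq_abs, abs_of_nonneg (sq_nonneg _)]
      simp_rw [this]
      exact hH T hT
  have hIH : ∫ s in Ioi (0 : ℝ), h s ^ 2 ≤ H := by
    refine le_of_tendsto (intervalIntegral_tendsto_integral_Ioi 0 hint tendsto_id) ?_
    filter_upwards [eventually_ge_atTop (0 : ℝ)] with T hT
    exact hH T hT
  have hpt : ∀ s ∈ Ioi (0 : ℝ),
      (ENNReal.ofReal (Real.sqrt s) * ENNReal.ofReal (h s)) ^ q / ENNReal.ofReal s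
        ≤ ENNReal.ofReal (δ ^ (q - 2) * h s ^ 2) := by
    intro s hs
    have hs' : 0 < s := hs
    have hsq : 0 < Real.sqrt s := Real.sqrt_pos.mpr hs'
    have hx0 : 0 ≤ Real.sqrt s * h s := mul_nonneg hsq.le (h0 s hs')
    have hxδ : Real.sqrt s * h s ≤ δ := by
      have := hle s hs'
      rw [le_div_iff₀ hsq] at this
      linarith
    calc (ENNReal.ofReal (Real.sqrt s) * ENNReal.ofReal (h s)) ^ q / ENNReal.ofReal s
        = ENNReal.ofReal ((Real.sqrt s * h s) ^ q / s) := by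
          rw [← ENNReal.ofReal_mul hsq.le, ENNReal.ofReal_rpow_of_nonneg hx0 (by linarith),
            ENNReal.ofReal_div_of_pos hs']
      _ ≤ ENNReal.ofReal (δ ^ (q - 2) * h s ^ 2) := by
          refine ENNReal.ofReal_le_ofReal ?_
          rw [div_le_iff₀ hs']
          have e : (Real.sqrt s * h s) ^ q
              = (Real.sqrt s * h s) ^ (q - 2) * (Real.sqrt s * h s) ^ (2 : ℝ) := by
            rw [← Real.rpow_add_of_nonneg hx0 (by linarith) (by norm_num), sub_add_cancel]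
          rw [e, Real.rpow_two, mul_pow, Real.sq_sqrt hs'.le]
          have h1 : (Real.sqrt s * h s) ^ (q - 2) ≤ δ ^ (q - 2) :=
            Real.rpow_le_rpow hx0 hxδ (by linarith)
          calc (Real.sqrt s * h s) ^ (q - 2) * (s * h s ^ 2)
              ≤ δ ^ (q - 2) * (s * h s ^ 2) :=
                mul_le_mul_of_nonneg_right h1 (by positivity)
            _ = _ := by ring
  have hδq : 0 ≤ δ ^ (q - 2) := Real.rpow_nonneg hδ _
  rw [Nq]
  refine ENNReal.rpow_le_rpow ?_ (by positivity)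
  have hm : Measurable fun s : ℝ =>
      (ENNReal.ofReal (Real.sqrt s) * ENNReal.ofReal (h s)) ^ q :=
    (((ENNReal.measurable_ofReal.comp Real.continuous_sqrt.measurable).mul
      (ENNReal.measurable_ofReal.comp hcont.measurable))).pow_const q
  calc ∫⁻ s, (ENNReal.ofReal (Real.sqrt s) * ENNReal.ofReal (h s)) ^ q ∂dss
      = ∫⁻ s in Ioi (0 : ℝ), (ENNReal.ofReal (Real.sqrt s) * ENNReal.ofReal (h s)) ^ q
          / ENNReal.ofReal s := lintegral_dss hm
    _ ≤ ∫⁻ s in Ioi (0 : ℝ), ENNReal.ofReal (δ ^ (q - 2) * h s ^ 2) :=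
        setLIntegral_mono' measurableSet_Ioi hpt
    _ = ENNReal.ofReal (∫ s in Ioi (0 : ℝ), δ ^ (q - 2) * h s ^ 2) := by
        rw [← ofReal_integral_eq_lintegral_ofReal (hint.const_mul _)]
        exact Eventually.of_forall fun s => mul_nonneg hδq (sq_nonneg _)
    _ ≤ ENNReal.ofReal (δ ^ (q - 2) * H) := by
        refine ENNReal.ofReal_le_ofReal ?_
        rw [integral_const_mul]
        exact mul_le_mul_of_nonneg_left hIH hδq

/-- The sum over `k` of the distances. -/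
noncomputable def Sd (a b : Cf) : ℝ≥0∞ := ∑' k, ENNReal.ofReal ‖a k - b k‖

/-- The conclusion of `StmStep`, as needed. -/
structure Stp (C₀ ν : ℝ) (U : ℝ → Cf) (z : Cf) (ε : ℝ) (a : ℝ → Cf) : Prop where
  csol : CSol ν a
  tg : Tg ν a
  one : ∀ q : ℝ, 2 < q → bN q (fun k => ENNReal.ofReal ‖a 0 k - z k‖)
    ≤ ENNReal.ofReal (ε ^ (q - 2) * (C₀ * ν * ∑' k, ‖z k - U 0 k‖ / len k)) ^ (1 / q)
  two : ∀ q : ℝ, 2 < q → ∀ t, 0 ≤ t → bN q (fun k => ENNReal.ofReal ‖a t k - U t k‖)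
    ≤ ENNReal.ofReal C₀ * bN q (fun k => ENNReal.ofReal ‖z k - U 0 k‖)
      + ENNReal.ofReal (ε ^ (q - 2) * (C₀ * ν * ∑' k, ‖z k - U 0 k‖ / len k)) ^ (1 / q)
      + ENNReal.ofReal ε
  int : ∫⁻ t in Ioc (0 : ℝ) 1, Sd (a t) (U t) ^ (2 : ℝ)
    ≤ ENNReal.ofReal (C₀ * (∑' k, ‖z k - U 0 k‖ / len k) + C₀)
  close : ∀ t, ε ≤ t → ∀ A : Finset K3, ∑ k ∈ A, ‖a t k - U t k‖ ≤ ε

theorem LSol.maj' {ν : ℝ} {U : ℝ → Cf} (h : LSol ν U) : Maj U := h.maj

theorem LSol.cnt {ν : ℝ} {U : ℝ → Cf} (h : LSol ν U) : Cnt U := fun k t ht =>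
  (h.der t ht k).continuousWithinAt

theorem Sd_eq_iSup (a b : Cf) :
    Sd a b = ⨆ A : Finset K3, ENNReal.ofReal (∑ k ∈ A, ‖a k - b k‖) := by
  rw [Sd, ENNReal.tsum_eq_iSup_sum]
  exact iSup_congr fun A => (ENNReal.ofReal_sum_of_nonneg fun k _ => norm_nonneg _).symm

theorem Sd_le {a b : Cf} {M : ℝ} (h : ∀ A : Finset K3, ∑ k ∈ A, ‖a k - b k‖ ≤ M) :
    Sd a b ≤ ENNReal.ofReal M := by
  rw [Sd_eq_iSup]
  exact iSup_le fun A => ENNReal.ofReal_le_ofReal (h A)

theorem int_two {a U : ℝ → Cf} (ha : Cnt a) (hU : Cnt U) {K : ℝ}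
    (h : ∀ T, 0 ≤ T → ∀ A : Finset K3, ∫ t in (0 : ℝ)..T, (∑ k ∈ A, ‖a t k - U t k‖) ^ 2 ≤ K) :
    ∫⁻ t in Ioc (0 : ℝ) 1, Sd (a t) (U t) ^ (2 : ℝ) ≤ ENNReal.ofReal K := by
  have e1 : ∀ t, Sd (a t) (U t) ^ (2 : ℝ)
      = ⨆ A : Finset K3, ENNReal.ofReal ((∑ k ∈ A, ‖a t k - U t k‖) ^ 2) := by
    intro t
    rw [Sd_eq_iSup]
    refine ((ENNReal.orderIsoRpow 2 (by norm_num)).map_iSup _).trans (iSup_congr fun A => ?_)
    rw [ENNReal.orderIsoRpow_apply, ENNReal.ofReal_rpow_of_nonneg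
      (Finset.sum_nonneg fun k _ => norm_nonneg _) (by norm_num), Real.rpow_two]
  simp_rw [e1]
  have hc : ∀ A : Finset K3, ContinuousOn (fun t => (∑ k ∈ A, ‖a t k - U t k‖) ^ 2)
      (Icc (0 : ℝ) 1) := fun A =>
    (continuousOn_finsetSum A fun k _ => ((ha k).sub (hU k)).norm.mono Icc_subset_Ici_self).pow 2
  have hi : ∀ A : Finset K3, IntegrableOn (fun t => (∑ k ∈ A, ‖a t k - U t k‖) ^ 2)
      (Ioc (0 : ℝ) 1) := fun A =>
    ((hc A).integrableOn_compact isCompact_Icc).mono_set Ioc_subset_Icc_self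
  rw [lintegral_iSup_directed]
  · refine iSup_le fun A => ?_
    rw [← ofReal_integral_eq_lintegral_ofReal (hi A)
      (Eventually.of_forall fun t => sq_nonneg _)]
    refine ENNReal.ofReal_le_ofReal ?_
    have := h 1 zero_le_one A
    rwa [intervalIntegral.integral_of_le zero_le_one] at this
  · intro A
    exact (hi A).aestronglyMeasurable.aemeasurable.ennreal_ofReal
  · intro A B
    refine ⟨A ∪ B, fun t => ENNReal.ofReal_le_ofReal ?_, fun t => ENNReal.ofReal_le_ofReal ?_⟩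
    · exact pow_le_pow_left₀ (Finset.sum_nonneg fun k _ => norm_nonneg _)
        (Finset.sum_le_sum_of_subset_of_nonneg Finset.subset_union_left
          fun k _ _ => norm_nonneg _) 2
    · exact pow_le_pow_left₀ (Finset.sum_nonneg fun k _ => norm_nonneg _)
        (Finset.sum_le_sum_of_subset_of_nonneg Finset.subset_union_right
          fun k _ _ => norm_nonneg _) 2

/-- From `StmStep` to `Stp`. -/
theorem stp_of_step (hStep : StmStep) : ∃ C₀ : ℝ, 0 < C₀ ∧ ∀ (ν : ℝ), 0 < ν → ∀ U : ℝ → Cf,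
    Tg ν U → ∀ (Z : Finset K3) (z : Cf), (0 : K3) ∉ Z → (∀ k ∉ Z, z k = 0) → Herm z → Dv z →
    ∀ ε : ℝ, 0 < ε → ∃ a : ℝ → Cf, Stp C₀ ν U z ε a := by
  obtain ⟨C₀, hC₀, H⟩ := hStep
  refine ⟨C₀, hC₀, fun ν hν U hU Z z hZ0 hz hh hd ε hε => ?_⟩
  obtain ⟨B, w, h, a, hcs, htg, ha0, hwB, -, hcont, hle, hH, hwh, hE, hI, hcl⟩ :=
    H ν hν U hU Z z hZ0 hz hh hd ε hε 0
  have hwA : ∀ s, 0 ≤ s → ∀ A : Finset K3, ∑ k ∈ A, ht s k * ‖w k‖ ≤ h s := by
    intro s hs A
    refine le_trans ?_ (hwh s hs)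
    have h1 : ∑ k ∈ A, ht s k * ‖w k‖ ≤ ∑ k ∈ A ∪ B, ht s k * ‖w k‖ :=
      Finset.sum_le_sum_of_subset_of_nonneg Finset.subset_union_left fun k _ _ =>
        mul_nonneg (h744.GS.ht_pos s k).le (norm_nonneg _)
    refine h1.trans (le_of_eq ?_)
    refine (Finset.sum_subset Finset.subset_union_right fun k _ hk => ?_).symm
    rw [hwB k hk, norm_zero, mul_zero]
  have h0 : ∀ s, 0 < s → 0 ≤ h s := fun s hs => by simpa using hwA s hs.le ∅
  have hb : ∀ q : ℝ, 2 < q → Nq dss q (fun s => ENNReal.ofReal (Real.sqrt s)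
      * ENNReal.ofReal (h s)) ≤ ENNReal.ofReal (ε ^ (q - 2)
        * (C₀ * ν * ∑' k, ‖z k - U 0 k‖ / len k)) ^ (1 / q) := fun q hq =>
    h_bound hq hε.le hcont h0 hle hH
  refine ⟨a, hcs, htg, fun q hq => ?_, fun q hq t ht => ?_, ?_, hcl⟩
  · refine le_trans (Nq_mono (by linarith) (dss_ae fun s hs => ?_)) (hb q hq)
    refine mul_le_mul' le_rfl ?_
    have e : ∀ k, ENNReal.ofReal (GS.ht s k) * ENNReal.ofReal ‖a 0 k - z k‖
        = ENNReal.ofReal (GS.ht s k * ‖w k‖) := fun k => by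
      rw [ENNReal.ofReal_mul (h744.GS.ht_pos s k).le, ha0 k, add_sub_cancel_left]
    simp_rw [e]
    refine ENNReal.summable.tsum_le_of_sum_le fun A => ?_
    rw [← ENNReal.ofReal_sum_of_nonneg fun k _ =>
      mul_nonneg (h744.GS.ht_pos s k).le (norm_nonneg _)]
    exact ENNReal.ofReal_le_ofReal (hwA s hs.le A)
  · obtain ⟨e, he0, hez, hes, heε, hee⟩ := hE t ht
    have hm1 : Measurable fun s : ℝ => ENNReal.ofReal (Real.sqrt s) * ENNReal.ofReal (h s) :=
      (ENNReal.measurable_ofReal.comp Real.continuous_sqrt.measurable).mul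
        (ENNReal.measurable_ofReal.comp hcont.measurable)
    have hsU : Summable fun k => ‖z k - U 0 k‖ := by
      have h1 : L1 (U 0) := Maj.l1 hU.maj le_rfl
      exact (L1.of_supp hz).sub h1
    have hht1 : ∀ s, 0 < s → ∀ k, GS.ht s k ≤ 1 := fun s hs k => by
      rw [GS.ht]
      refine Real.exp_le_one_iff.2 ?_
      have := sq_nonneg' k
      have : 0 ≤ 4 * Real.pi ^ 2 * GD.sq k * s := by positivity
      linarith
    have key : ∀ s, 0 < s → Fb (fun k => ENNReal.ofReal ‖a t k - U t k‖) s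
        ≤ ENNReal.ofReal C₀ * Fb (fun k => ENNReal.ofReal ‖z k - U 0 k‖) s
          + ENNReal.ofReal (Real.sqrt s) * ENNReal.ofReal (h s)
          + Fb (fun k => ENNReal.ofReal (e k)) s := by
      intro s hs
      have hs1 : Summable fun k => GS.ht s k * ‖z k - U 0 k‖ :=
        Summable.of_nonneg_of_le (fun k => mul_nonneg (h744.GS.ht_pos s k).le (norm_nonneg _))
          (fun k => mul_le_of_le_one_left (norm_nonneg _) (hht1 s hs k)) hsU
      have hs2 : Summable fun k => GS.ht s k * e k :=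
        Summable.of_nonneg_of_le (fun k => mul_nonneg (h744.GS.ht_pos s k).le (he0 k))
          (fun k => mul_le_of_le_one_left (he0 k) (hht1 s hs k)) hes
      have h1 : ∑' k, ENNReal.ofReal (GS.ht s k) * ENNReal.ofReal ‖a t k - U t k‖
          ≤ ENNReal.ofReal C₀ * (∑' k, ENNReal.ofReal (GS.ht s k) * ENNReal.ofReal ‖z k - U 0 k‖)
            + ENNReal.ofReal (h s) + ∑' k, ENNReal.ofReal (GS.ht s k) * ENNReal.ofReal (e k) := by
        have e1 : ∀ k, ENNReal.ofReal (GS.ht s k) * ENNReal.ofReal ‖a t k - U t k‖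
            = ENNReal.ofReal (GS.ht s k * ‖a t k - U t k‖) := fun k =>
          (ENNReal.ofReal_mul (h744.GS.ht_pos s k).le).symm
        have e2 : ∀ k, ENNReal.ofReal (GS.ht s k) * ENNReal.ofReal ‖z k - U 0 k‖
            = ENNReal.ofReal (GS.ht s k * ‖z k - U 0 k‖) := fun k =>
          (ENNReal.ofReal_mul (h744.GS.ht_pos s k).le).symm
        have e3 : ∀ k, ENNReal.ofReal (GS.ht s k) * ENNReal.ofReal (e k)
            = ENNReal.ofReal (GS.ht s k * e k) := fun k =>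
          (ENNReal.ofReal_mul (h744.GS.ht_pos s k).le).symm
        simp_rw [e1, e2, e3]
        rw [← ENNReal.ofReal_tsum_of_nonneg (fun k => mul_nonneg (h744.GS.ht_pos s k).le
          (norm_nonneg _)) hs1, ← ENNReal.ofReal_tsum_of_nonneg (fun k =>
            mul_nonneg (h744.GS.ht_pos s k).le (he0 k)) hs2, ← ENNReal.ofReal_mul hC₀.le,
          ← ENNReal.ofReal_add (mul_nonneg hC₀.le (tsum_nonneg fun k =>
            mul_nonneg (h744.GS.ht_pos s k).le (norm_nonneg _))) (h0 s hs),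
          ← ENNReal.ofReal_add (add_nonneg (mul_nonneg hC₀.le (tsum_nonneg fun k =>
            mul_nonneg (h744.GS.ht_pos s k).le (norm_nonneg _))) (h0 s hs))
            (tsum_nonneg fun k => mul_nonneg (h744.GS.ht_pos s k).le (he0 k))]
        refine ENNReal.summable.tsum_le_of_sum_le fun A => ?_
        rw [← ENNReal.ofReal_sum_of_nonneg fun k _ =>
          mul_nonneg (h744.GS.ht_pos s k).le (norm_nonneg _)]
        exact ENNReal.ofReal_le_ofReal (hee s hs.le A)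
      rw [Fb, Fb, Fb]
      calc _ ≤ ENNReal.ofReal (Real.sqrt s) * (ENNReal.ofReal C₀ * (∑' k,
            ENNReal.ofReal (GS.ht s k) * ENNReal.ofReal ‖z k - U 0 k‖)
            + ENNReal.ofReal (h s) + ∑' k, ENNReal.ofReal (GS.ht s k) * ENNReal.ofReal (e k)) :=
            mul_le_mul' le_rfl h1
        _ = _ := by ring
    have hm2 : Measurable fun s : ℝ => ENNReal.ofReal C₀
        * Fb (fun k => ENNReal.ofReal ‖z k - U 0 k‖) s := (Fb_meas _).const_mul _
    have hq1 : 1 ≤ q := by linarith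
    calc bN q (fun k => ENNReal.ofReal ‖a t k - U t k‖)
        ≤ Nq dss q (fun s => ENNReal.ofReal C₀ * Fb (fun k => ENNReal.ofReal ‖z k - U 0 k‖) s
          + ENNReal.ofReal (Real.sqrt s) * ENNReal.ofReal (h s)
          + Fb (fun k => ENNReal.ofReal (e k)) s) :=
          Nq_mono (by linarith) (dss_ae key)
      _ ≤ Nq dss q (fun s => ENNReal.ofReal C₀ * Fb (fun k => ENNReal.ofReal ‖z k - U 0 k‖) s
          + ENNReal.ofReal (Real.sqrt s) * ENNReal.ofReal (h s))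
          + bN q (fun k => ENNReal.ofReal (e k)) :=
          Nq_add hq1 (hm2.add hm1).aemeasurable (Fb_meas _).aemeasurable
      _ ≤ (Nq dss q (fun s => ENNReal.ofReal C₀ * Fb (fun k => ENNReal.ofReal ‖z k - U 0 k‖) s)
          + Nq dss q (fun s => ENNReal.ofReal (Real.sqrt s) * ENNReal.ofReal (h s)))
          + bN q (fun k => ENNReal.ofReal (e k)) :=
          add_le_add (Nq_add hq1 hm2.aemeasurable hm1.aemeasurable) le_rfl
      _ ≤ _ := by
          refine add_le_add (add_le_add (le_of_eq ?_) (hb q hq)) ?_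
          · exact Nq_const_mul (by linarith) ENNReal.ofReal_ne_top _
          · exact bN_le_sum hq he0 hez hes heε
  · exact int_two (LSol.cnt htg.toLSol) (LSol.cnt hU.toLSol) hI

end Pool.Agent.Run7.h969.GS
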